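import Pool.Agent.H93.HQ.Targets

/-!
# Dilations scale the measure by `r ^ (2 n + 2)` (row DIL)
-/

namespace Pool.Agent.H23.HQ
open MeasureTheory Set Pool.Agent.H80.HS Pool.Agent.H93.HQ
open scoped ContDiff ENNReal

/-- Scaling of the Lebesgue integral in one factor. -/
lemma scale_one {E : Type*} [NormedAddCommGroup E] [NormedSpace ℝ E] [MeasurableSpace E]
    [BorelSpace E] [FiniteDimensional ℝ E] (μ : Measure E) [μ.IsAddHaarMeasure]
    (g : E → ℝ≥0∞) (hg : Measurable g) {c : ℝ} (hc : 0 < c) :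
    ∫⁻ x, g (c • x) ∂μ = ENNReal.ofReal ((c ^ Module.finrank ℝ E)⁻¹) * ∫⁻ x, g x ∂μ := by
  have h1 := Measure.map_addHaar_smul μ hc.ne'
  have h2 : ∫⁻ x, g (c • x) ∂μ = ∫⁻ x, g x ∂(Measure.map (fun x => c • x) μ) := by
    rw [lintegral_map hg (measurable_const_smul c)]
  rw [h2]
  have h3 : Measure.map (fun x => c • x) μ
      = ENNReal.ofReal |(c ^ Module.finrank ℝ E)⁻¹| • μ := h1
  rw [h3, lintegral_smul_measure, abs_of_pos (by positivity)]
  rfl

theorem pf_DIL : U_DIL := by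
  intro n f r hf hr
  have hm : Measurable (fun x : H n => dil r x) := by
    unfold dil
    fun_prop
  have hfd : Measurable (fun x : H n => f (dil r x)) := hf.comp hm
  -- one factor at a time
  have e1 : ∫⁻ x, f x = ∫⁻ a : V n, ∫⁻ b : V n, ∫⁻ t : ℝ, f (a, b, t) := by
    rw [Measure.volume_eq_prod, lintegral_prod _ hf.aemeasurable]
    refine lintegral_congr fun a => ?_
    exact lintegral_prod (fun y : V n × ℝ => f (a, y))
      (hf.comp measurable_prodMk_left).aemeasurable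
  have e2 : ∫⁻ x, f (dil r x)
      = ∫⁻ a : V n, ∫⁻ b : V n, ∫⁻ t : ℝ, f (r • a, r • b, r ^ 2 * t) := by
    rw [Measure.volume_eq_prod, lintegral_prod _ hfd.aemeasurable]
    refine lintegral_congr fun a => ?_
    exact lintegral_prod (fun y : V n × ℝ => f (dil r (a, y)))
      (hfd.comp measurable_prodMk_left).aemeasurable
  have hr2 : 0 < r ^ 2 := by positivity
  have m1 : Measurable (fun p : V n × V n => ∫⁻ t : ℝ, f (p.1, p.2, t)) := by
    have : Measurable (fun q : (V n × V n) × ℝ => f (q.1.1, q.1.2, q.2)) :=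
      hf.comp (by fun_prop)
    exact this.lintegral_prod_right'
  have m2 : Measurable (fun a : V n => ∫⁻ b : V n, ∫⁻ t : ℝ, f (a, b, t)) :=
    m1.lintegral_prod_right'
  have s1 : ∀ a b : V n, ∫⁻ t : ℝ, f (r • a, r • b, r ^ 2 * t)
      = ENNReal.ofReal ((r ^ 2)⁻¹) * ∫⁻ t : ℝ, f (r • a, r • b, t) := by
    intro a b
    have := scale_one (volume : Measure ℝ) (fun t => f (r • a, r • b, t))
      (hf.comp (by fun_prop)) hr2
    simpa [smul_eq_mul] using this
  have s2 : ∀ a : V n, ∫⁻ b : V n, ∫⁻ t : ℝ, f (r • a, r • b, t)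
      = ENNReal.ofReal ((r ^ n)⁻¹) * ∫⁻ b : V n, ∫⁻ t : ℝ, f (r • a, b, t) := by
    intro a
    have := scale_one (volume : Measure (V n)) (fun b => ∫⁻ t : ℝ, f (r • a, b, t))
      (m1.comp measurable_prodMk_left) hr
    simpa using this
  have s3 : ∫⁻ a : V n, ∫⁻ b : V n, ∫⁻ t : ℝ, f (r • a, b, t)
      = ENNReal.ofReal ((r ^ n)⁻¹) * ∫⁻ a : V n, ∫⁻ b : V n, ∫⁻ t : ℝ, f (a, b, t) := by
    have := scale_one (volume : Measure (V n)) (fun a => ∫⁻ b : V n, ∫⁻ t : ℝ, f (a, b, t))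
      m2 hr
    simpa using this
  have e3 : ∫⁻ x, f (dil r x)
      = ENNReal.ofReal ((r ^ 2)⁻¹) * (ENNReal.ofReal ((r ^ n)⁻¹)
        * (ENNReal.ofReal ((r ^ n)⁻¹) * ∫⁻ x, f x)) := by
    rw [e2, e1, ← s3]
    have c1 : ∀ a : V n, ∫⁻ b : V n, ∫⁻ t : ℝ, f (r • a, r • b, r ^ 2 * t)
        = ENNReal.ofReal ((r ^ 2)⁻¹) * (ENNReal.ofReal ((r ^ n)⁻¹) *
          ∫⁻ b : V n, ∫⁻ t : ℝ, f (r • a, b, t)) := by
      intro a
      rw [← s2 a, ← lintegral_const_mul' _ _ ENNReal.ofReal_ne_top]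
      exact lintegral_congr fun b => s1 a b
    rw [lintegral_congr c1, lintegral_const_mul' _ _ ENNReal.ofReal_ne_top,
      lintegral_const_mul' _ _ ENNReal.ofReal_ne_top]
  rw [e3]
  simp only [← mul_assoc]
  rw [← ENNReal.ofReal_mul (by positivity), ← ENNReal.ofReal_mul (by positivity),
    ← ENNReal.ofReal_mul (by positivity)]
  have : r ^ (2 * n + 2) * (r ^ 2)⁻¹ * (r ^ n)⁻¹ * (r ^ n)⁻¹ = 1 := by
    have h := hr.ne'
    field_simp
    ring
  rw [this]
  simp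

end Pool.Agent.H23.HQ
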